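import Pool.Agent.U898.SV.Step
import Pool.Agent.R189.NC.Cor

/-!
# Affine extensions with solvmanifolds as fibres
-/

set_option autoImplicit false
set_option linter.unusedSectionVars false

open scoped Manifold ContDiff Topology
open Filter Set Metric

universe u

namespace Pool.Agent.U898.SV

open Pool.Agent.H718R2.G Pool.Agent.W564.SC Pool.Agent.TH382.QC Pool.Agent.R189.NC

theorem itH_eq {S : Type} [Group S] (φ : MulAut S) (i : ℕ) (g : S) :
    itH φ.toMonoidHom i g = (φ ^ i) g := by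
  induction i with
  | zero => rfl
  | succ i ih =>
    show φ (itH φ.toMonoidHom i g) = _
    rw [ih, pow_succ']
    rfl

theorem pow_mem_iff {S : Type} [Group S] {G : Subgroup S} {φ : MulAut S}
    (hφ : ∀ g, φ g ∈ G ↔ g ∈ G) (i : ℕ) (g : S) : (φ ^ i) g ∈ G ↔ g ∈ G := by
  induction i with
  | zero => exact Iff.rfl
  | succ i ih =>
    rw [pow_succ']
    exact (hφ _).trans ih

/-- a skew product over a map for which the orbit of `z` is periodic -/
theorem skew_per {n : ℕ} {N : Type u} [TopologicalSpace N] [ChartedSpace (V n) N]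
    {S : Type} [Group S] [TopologicalSpace S] [IsTopologicalGroup S] {D k d : ℕ}
    {κ : S →* Md D} {ρ : S → N → N} {p : S → Fin k → ℝ} {G : Subgroup S} {ι : G →* Md d}
    (hρ : IsLieAction n N κ univ ρ) {φ : MulAut S} (hφ : ∀ g, φ g ∈ G ↔ g ∈ G)
    {A : N → S} {F₀ F : N → N} (h : IsSkew ρ φ.toMonoidHom A F₀ F) {z : N}
    (hz : IsSolvPt n κ univ ρ p G ι z) (hper : ∃ q : ℕ, 1 ≤ q ∧ ∃ a, F₀^[q] z = ρ a z) :
    IsSolvPer n N F z := by
  classical
  have h1 : ∀ y, ρ 1 y = y := fun y => hρ.one y (mem_univ _)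
  have hm : ∀ g h y, ρ (g * h) y = ρ g (ρ h y) := fun g h y => hρ.mul g h y (mem_univ _)
  obtain ⟨m, hmdef⟩ : ∃ m, m = Nat.find hper := ⟨_, rfl⟩
  obtain ⟨hm1, a, ha⟩ : 1 ≤ m ∧ ∃ a, F₀^[m] z = ρ a z := by
    rw [hmdef]
    exact Nat.find_spec hper
  have hmin : ∀ i, 1 ≤ i → i < m → ∀ a, F₀^[i] z ≠ ρ a z := by
    intro i hi him a hik
    rw [hmdef] at him
    exact Nat.find_min hper him ⟨hi, a, hik⟩
  obtain ⟨w, hw⟩ := skew_iter h1 hm h z m
  have hnorm : ∀ (a g : S), a * g * a⁻¹ ∈ G ↔ g ∈ G := by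
    intro a g
    rw [hz.ker, hz.ker, hz.add, hz.add, p_inv hz.add, add_comm (p a), add_neg_cancel_right]
  refine ⟨S, inferInstance, inferInstance, inferInstance, D, k, d, κ, univ, ρ, p, G, ι, hρ,
    mem_univ _, hz, m, hm1, ⟨w * a, (MulAut.conj a⁻¹ * φ ^ m : MulAut S), fun g => ?_,
    fun g => ?_⟩, fun i hi him g g' hc => ?_⟩
  · show a⁻¹ * (φ ^ m) g * a⁻¹⁻¹ ∈ G ↔ _
    rw [hnorm]
    exact pow_mem_iff hφ m g
  · rw [hw, ha, ← hm, itH_eq]
    congr 1
    show w * (φ ^ m) g * a = w * a * (a⁻¹ * (φ ^ m) g * a⁻¹⁻¹)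
    group
  · obtain ⟨w', hw'⟩ := skew_iter h1 hm h z i
    rw [hw'] at hc
    refine hmin i hi him ((w' * itH φ.toMonoidHom i g)⁻¹ * g') ?_
    rw [hm, ← hc, ← hm, inv_mul_cancel, h1]

variable {n : ℕ} {N : Type u} [TopologicalSpace N] [T2Space N] [CompactSpace N]
  [ChartedSpace (V n) N] [IsManifold (𝓡 n) ∞ N] {r : ℕ∞}
  {S : Type} [Group S] [TopologicalSpace S] [IsTopologicalGroup S] {D k d : ℕ}
  {κ : S →* Md D} {ρ : S → N → N} {p : S → Fin k → ℝ} {G : Subgroup S} {ι : G →* Md d}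

/-- Affine extensions of maps which can be closed. -/
theorem extension (hρ : IsLieAction n N κ univ ρ) {φ : MulAut S} (hφ : ∀ g, φ g ∈ G ↔ g ∈ G)
    {A : N → S} (F₀ F : DiffM n N r) (h : IsSkew ρ φ.toMonoidHom A F₀ F) (z : N)
    (hz : IsSolvPt n κ univ ρ p G ι z) (hc : BaseClosable n N r ρ φ.toMonoidHom F₀ z) :
    ClosableAt n N r F z := by
  have hcomp : S_COMP := Pool.Agent.W917.SC.comp
  obtain ⟨H, hH, hcv⟩ := Cv.exists_seq hcomp F₀
    (fun H => Equi ρ φ.toMonoidHom H ∧ ∃ q : ℕ, 1 ≤ q ∧ ∃ k, H^[q] z = ρ k z) hc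
  refine main F z fun U hU hFU => ?_
  have c1 := Cv.trans hcomp (Cv.trans hcomp hcv (Cv.const F₀.symm)) (Cv.const F)
  have e : (F₀.trans F₀.symm).trans F = F := by
    ext y
    show F (F₀.symm (F₀ y)) = F y
    rw [F₀.symm_apply_apply]
  rw [e] at c1
  obtain ⟨m, hm⟩ := (c1.mem hU hFU).exists
  exact ⟨_, hm, subset_closure (skew_per hρ hφ (skew_diff h (hH m).1) hz (hH m).2)⟩

/-- Quasi-periodic affine cocycles, for example
`F (x, g Γ) = (x + α, A(x) φ(g) Γ)` on `𝕋ᵉ × S / Γ`. -/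
theorem quasiperiodic {e : ℕ} (hρ : IsLieAction n N κ univ ρ) {φ : MulAut S}
    (hφ : ∀ g, φ g ∈ G ↔ g ∈ G) {R : V e → N → N}
    (hR : IsTorusAct e n N R) (hRρ : ∀ a g y, R a (ρ g y) = ρ g (R a y)) (α : V e)
    (Φ : DiffM n N r) (hΦ : Equi ρ φ.toMonoidHom Φ) (hΦR : ∀ a y, Φ (R a y) = R a (Φ y))
    {A : N → S} (hA : ∀ g y, A (ρ g y) = A y) (F : DiffM n N r)
    (hF : ∀ y, F y = ρ (A y) (R α (Φ y)))
    (z : N) (hz : IsSolvPt n κ univ ρ p G ι z) (hΦz : ∃ k, Φ z = ρ k z) :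
    ClosableAt n N r F z := by
  have hρ1 : ∀ y, ρ 1 y = y := fun y => hρ.one y (mem_univ _)
  have hρm : ∀ g h y, ρ (g * h) y = ρ g (ρ h y) := fun g h y => hρ.mul g h y (mem_univ _)
  obtain ⟨H, hfam, hH⟩ := tor_fam hR r α
  have hE : ∀ s, Equi ρ φ.toMonoidHom (Φ.trans (H s)) := by
    intro s g y
    show H s (Φ (ρ g y)) = ρ (φ.toMonoidHom g) (H s (Φ y))
    rw [hH, hH, hΦ, hRρ]
  refine extension hρ hφ (Φ.trans (H 0)) F (A := A) ⟨hA, hE 0, fun y => ?_⟩ z hz ?_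
  · show F y = ρ (A y) (H 0 (Φ y))
    rw [hH, add_zero, hF]
  · intro U hU hU0
    obtain ⟨a, ha, hint⟩ := rat_approx α
    have hcv := Cv.fam Pool.Agent.W917.SC.comp (fam_trans Φ hfam) ha
    obtain ⟨k, hk⟩ := (hcv.mem hU hU0).exists
    refine ⟨_, hk, hE _, k + 1, by omega, ?_⟩
    have e1 : ∀ (i : ℕ) (y : N), (Φ.trans (H (a k)))^[i] y = R (i • (α + a k)) (Φ^[i] y) := by
      intro i y
      induction i with
      | zero =>
        rw [zero_smul, hR.zero]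
        rfl
      | succ i ih =>
        rw [Function.iterate_succ_apply', ih]
        show H (a k) (Φ (R (i • (α + a k)) (Φ^[i] y))) = _
        rw [hH, hΦR, ← hR.add, Function.iterate_succ_apply', succ_nsmul']
    have e2 : ∀ i : ℕ, ∃ b, Φ^[i] z = ρ b z := by
      intro i
      induction i with
      | zero => exact ⟨1, (hρ1 z).symm⟩
      | succ i ih =>
        obtain ⟨b, hb⟩ := ih
        obtain ⟨c, hc⟩ := hΦz
        exact ⟨φ b * c, by
          rw [Function.iterate_succ_apply', hb, hΦ, hc, ← hρm]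
          rfl⟩
    obtain ⟨b, hb⟩ := e2 (k + 1)
    exact ⟨b, by rw [e1, hR.int _ (hint k), hb]⟩

end Pool.Agent.U898.SV
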