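import Pool.Agent.R189.NC.Defs

/-!
# Periodic solvmanifolds `S / Γ` with affine return maps: definitions
-/

set_option autoImplicit false

open scoped Manifold ContDiff Topology
open Filter Set

universe u

namespace Pool.Agent.U898.SV

open Pool.Agent.H718R2.G Pool.Agent.R189.NC

/-- `act` is a smooth action of the Lie group `S` on the open subset `O` of the manifold `N`. The Lie
group `S` is given as a topological group with a faithful continuous representation `κ` by real
matrices. Smoothness: for every family `c` of elements of `S` whose matrices depend smoothly on a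
parameter `s ∈ ℝʲ`, the map `(s, y) ↦ c(s) y` is smooth. -/
structure IsLieAction (n : ℕ) (N : Type u) [TopologicalSpace N] [ChartedSpace (V n) N]
    {S : Type} [Group S] [TopologicalSpace S] {D : ℕ} (κ : S →* Md D)
    (O : Set N) (act : S → N → N) : Prop where
  rep_cont : Continuous κ
  rep_inj : Function.Injective κ
  isOpen : IsOpen O
  maps : ∀ g, ∀ y ∈ O, act g y ∈ O
  one : ∀ y ∈ O, act 1 y = y
  mul : ∀ g h, ∀ y ∈ O, act (g * h) y = act g (act h y)
  cont : ContinuousOn (fun p : S × N => act p.1 p.2) (univ ×ˢ O)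
  smooth : ∀ (j : ℕ) (c : V j → S), (∀ a b, ContDiff ℝ ∞ fun s => κ (c s) a b) →
    ContMDiffOn ((𝓡 j).prod (𝓡 n)) (𝓡 n) ∞ (fun p : V j × N => act (c p.1) p.2) (univ ×ˢ O)

/-- The orbit `S y = S / Γ` is a compact solvmanifold:
* `S / G = ℝᵏ` for a normal subgroup `G` of `S`: `p : S → ℝᵏ` is a homomorphism with kernel `G`, and
  there are smooth one parameter subgroups `c` of `S` with `p (c t) = t e_j`;
* the image in `ℝᵏ` of the stabiliser `Γ` of `y` is the lattice `ℤᵏ`;
* `G` is a nilpotent Lie group, given by the faithful representation `ι` by unitriangular matrices, acts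
  smoothly, and `G ∩ Γ` is a cocompact arithmetic subgroup of `G`, so that `G y` is a nilmanifold;
* `S y = K y` for some compact set `K`.
(By theorems of Mostow and Malcev every lattice `Γ` of a simply connected solvable Lie group `S` with
the nilradical `G` has these properties, in suitable coordinates of `S / G`.) -/
structure IsSolvPt (n : ℕ) {N : Type u} [TopologicalSpace N] [ChartedSpace (V n) N]
    {S : Type} [Group S] [TopologicalSpace S] {D k d : ℕ} (κ : S →* Md D) (O : Set N)
    (act : S → N → N) (p : S → Fin k → ℝ) (G : Subgroup S) (ι : G →* Md d) (y : N) : Prop where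
  add : ∀ a b, p (a * b) = p a + p b
  ker : ∀ g, g ∈ G ↔ p g = 0
  line : ∀ j, ∃ c : ℝ → S, IsOne κ c ∧ ∀ t, p (c t) = Pi.single j t
  lattice : ∀ v : Fin k → ℝ, (∃ g, act g y = y ∧ p g = v) ↔ ∀ j, ∃ a : ℤ, v j = a
  nilAct : IsNilAction n N ι O (fun (g : G) w => act g w)
  nil : IsNilPt ι (fun (g : G) w => act g w) y
  cocompact : ∃ K : Set S, IsCompact K ∧ ∀ g, ∃ a ∈ K, act g y = act a y

/-- `y` lies on a periodic solvmanifold `C = S y ≅ S / Γ` of `F` with affine return map: the solvable Lie
group `S` acts smoothly on an open set `O` which contains `y`, the orbit of `y` is a compact solvmanifold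
(`IsSolvPt`), it is periodic with some period `m ≥ 1` (`F^i(C)` does not meet `C` for `1 ≤ i < m`), and
on `C` the map `F^m` is `g y ↦ h φ(g) y` for some `h ∈ S` and some automorphism `φ` of the group `S` with
`φ(G) = G`. Nothing is required of `F` outside of `C, F(C), ..., F^(m-1)(C)`. -/
def IsSolvPer (n : ℕ) (N : Type u) [TopologicalSpace N] [ChartedSpace (V n) N] (F : N → N)
    (y : N) : Prop :=
  ∃ (S : Type) (_ : Group S) (_ : TopologicalSpace S) (_ : IsTopologicalGroup S) (D k d : ℕ)
    (κ : S →* Md D) (O : Set N) (act : S → N → N) (p : S → Fin k → ℝ) (G : Subgroup S)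
    (ι : G →* Md d),
    IsLieAction n N κ O act ∧ y ∈ O ∧ IsSolvPt n κ O act p G ι y ∧
    ∃ m : ℕ, 1 ≤ m ∧
      (∃ (h : S) (φ : S ≃* S), (∀ g, φ g ∈ G ↔ g ∈ G) ∧
        ∀ g, F^[m] (act g y) = act (h * φ g) y) ∧
      ∀ i, 1 ≤ i → i < m → ∀ g g', F^[i] (act g y) ≠ act g' y

end Pool.Agent.U898.SV
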