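import Pool.Agent.U898.SV.Defs
import Pool.Agent.R189.NC.Step

/-!
# Perturbations along one parameter subgroups of a Lie group

The same proofs as in `Pool.Agent.R189.NC.Step`, for smooth actions of Lie groups which are not
necessarily nilpotent.
-/

set_option autoImplicit false
set_option linter.unusedSectionVars false

open scoped Manifold ContDiff Topology NNReal
open Filter Set Metric

universe u

namespace Pool.Agent.U898.SV

open Pool.Agent.H718R2.G Pool.Agent.W564.SC Pool.Agent.TH382.QC Pool.Agent.TH80.CLX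
  Pool.Agent.TH382.HS Pool.Agent.R189.NC

variable {n : ℕ} {N : Type u} [TopologicalSpace N] [T2Space N] [CompactSpace N]
  [ChartedSpace (V n) N] [IsManifold (𝓡 n) ∞ N] {r : ℕ∞}
  {S : Type} [Group S] [TopologicalSpace S] {D : ℕ} {κ : S →* Md D}

theorem act_cont {O : Set N} {act : S → N → N} (hact : IsLieAction n N κ O act) {y : N}
    (hyO : y ∈ O) : Continuous (fun a : S => act a y) := by
  have h1 : ContinuousOn (fun a : S => act a y) univ :=
    hact.cont.comp (f := fun a : S => ((a, y) : S × N)) (by fun_prop)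
      (fun a _ => ⟨mem_univ _, hyO⟩)
  exact continuousOn_univ.1 h1

/-- perturbations of `F` along a one parameter subgroup of `S` -/
theorem pert {O : Set N} {act : S → N → N} (hact : IsLieAction n N κ O act) {y : N}
    (hyO : y ∈ O) (hcoc : ∃ K : Set S, IsCompact K ∧ ∀ g, ∃ k ∈ K, act g y = act k y)
    (F : DiffM n N r) {m : ℕ} (hm : 1 ≤ m)
    (hdis : ∀ i, 1 ≤ i → i < m → ∀ g g', F^[i] (act g y) ≠ act g' y)
    {c : ℝ → S} (hc : IsOne κ c) :
    ∃ (H : V 1 → DiffM n N r) (ε : ℝ), 0 < ε ∧ H 0 = F ∧ IsFam n N r H ∧ ∀ t, ‖t‖ < ε →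
      ∀ (a : S), (∀ i < m, (H t)^[i] (act a y) = F^[i] (act a y)) ∧
        ∀ b : S, F^[m] (act a y) = act b y → (H t)^[m] (act a y) = act (c (t 0) * b) y := by
  classical
  have hc0 := one_zero hc.add
  obtain ⟨K, hK, hKy⟩ := hcoc
  have hcy := act_cont hact hyO
  -- the orbit
  obtain ⟨C, hC⟩ : ∃ C : Set N, C = (fun a : S => act a y) '' K := ⟨_, rfl⟩
  have hCc : IsCompact C := by
    rw [hC]
    exact hK.image hcy
  have hCmem : ∀ a : S, act a y ∈ C := by
    intro a
    obtain ⟨b, hb, hab⟩ := hKy a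
    rw [hC]
    exact ⟨b, hb, hab.symm⟩
  have hCmem' : ∀ w ∈ C, ∃ a : S, act a y = w := by
    intro w hw
    rw [hC] at hw
    obtain ⟨a, -, ha⟩ := hw
    exact ⟨a, ha⟩
  have hCO : C ⊆ O := by
    intro w hw
    obtain ⟨a, ha⟩ := hCmem' w hw
    rw [← ha]
    exact hact.maps a y hyO
  obtain ⟨C0, hC0⟩ : ∃ C0 : Set N, C0 = ⋃ i ∈ Finset.Ico 1 m, F^[i] '' C := ⟨_, rfl⟩
  have hFc : ∀ i : ℕ, Continuous (F^[i]) := fun i => F.continuous.iterate i
  have hC0c : IsClosed C0 := by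
    rw [hC0]
    exact isClosed_biUnion_finset fun i _ => (hCc.image (hFc i)).isClosed
  have hdisj0 : Disjoint C0 C := by
    rw [Set.disjoint_left]
    intro w hw1 hw2
    rw [hC0] at hw1
    simp only [mem_iUnion, Finset.mem_Ico] at hw1
    obtain ⟨i, ⟨hi1, hi2⟩, v, hv, hvw⟩ := hw1
    obtain ⟨a, ha⟩ := hCmem' v hv
    obtain ⟨b, hb⟩ := hCmem' w hw2
    apply hdis i hi1 hi2 a b
    rw [ha, hvw, hb]
  -- a compact neighbourhood of the orbit
  obtain ⟨O₁, hO₁, hCO₁, hO₁O, hO₁c⟩ := exists_open_between_and_isCompact_closure hCc hact.isOpen hCO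
  have hDD : IsClosed (C0 ∪ O₁ᶜ) := hC0c.union hO₁.isClosed_compl
  have hdisj : Disjoint (C0 ∪ O₁ᶜ) C := by
    rw [Set.disjoint_union_left]
    exact ⟨hdisj0, Set.disjoint_left.2 fun w hw hwC => hw (hCO₁ hwC)⟩
  obtain ⟨f, hf0, hf1, -⟩ := exists_contMDiffMap_zero_one_of_isClosed (n := ⊤) (𝓡 n) hDD
    hCc.isClosed hdisj
  have hρ : ContMDiff (𝓡 n) 𝓘(ℝ, ℝ) ∞ (f : N → ℝ) := f.contMDiff
  have hρ0 : ∀ w ∈ O, w ∉ closure O₁ → f w = 0 := by
    intro w _ hwK
    exact hf0 (Or.inr fun h1 => hwK (subset_closure h1))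
  have hA : LAct 1 n N O (fun t w => act (c (t 0)) w) :=
    { isOpen := hact.isOpen
      maps := fun t w hw => hact.maps _ w hw
      smooth := hact.smooth 1 (fun t => c (t 0)) (fun a b => by
        have h1 : ContDiff ℝ ∞ (fun t : V 1 => t 0) :=
          (EuclideanSpace.proj (𝕜 := ℝ) (0 : Fin 1)).contDiff
        exact (hc.smooth a b).comp h1)
      zero := fun w hw => by
        show act (c ((0 : V 1) 0)) w = w
        have e : ((0 : V 1) 0 : ℝ) = 0 := rfl
        rw [e, hc0, hact.one w hw]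
      add := fun t t' w hw => by
        show act (c ((t + t') 0)) w = act (c (t 0)) (act (c (t' 0)) w)
        have e : ((t + t') 0 : ℝ) = t 0 + t' 0 := rfl
        rw [e, hc.add, hact.mul _ _ w hw] }
  obtain ⟨P, ε, hε, hP0, hPfam, hP⟩ := lact_fam' hA hρ (closure O₁) hO₁c isClosed_closure hO₁O hρ0 r
    (Diffeomorph.refl (𝓡 n) N r)
  refine ⟨fun t => F.trans (P t), ε, hε, ?_, fam_trans F hPfam, ?_⟩
  · ext w
    show P 0 (F w) = F w
    rw [hP0]
    rfl
  intro t ht a
  have hPs : ∀ w, P t w = if w ∈ O then act (c ((f w • t) 0)) w else w := hP t ht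
  have hP1 : ∀ b : S, P t (act b y) = act (c (t 0) * b) y := by
    intro b
    have h2 : f (act b y) = 1 := hf1 (hCmem b)
    rw [hPs, if_pos (hCO (hCmem b)), h2, one_smul, ← hact.mul _ _ y hyO]
  have hP2 : ∀ w ∈ C0, P t w = w := by
    intro w hw
    have h2 : f w = 0 := hf0 (Or.inl hw)
    rw [hPs]
    by_cases hO : w ∈ O
    · rw [if_pos hO, h2, zero_smul]
      have e : ((0 : V 1) 0 : ℝ) = 0 := rfl
      rw [e, hc0, hact.one _ hO]
    · rw [if_neg hO]
  have h1 : ∀ i < m, (F.trans (P t))^[i] (act a y) = F^[i] (act a y) := by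
    intro i
    induction i with
    | zero => intro _; rfl
    | succ i ih =>
      intro hi
      rw [Function.iterate_succ_apply', ih (by omega)]
      show P t (F (F^[i] (act a y))) = _
      rw [← Function.iterate_succ_apply' F]
      apply hP2
      rw [hC0]
      simp only [mem_iUnion, Finset.mem_Ico]
      exact ⟨i + 1, ⟨by omega, hi⟩, _, hCmem a, rfl⟩
  refine ⟨h1, fun b hb => ?_⟩
  obtain ⟨l, hl⟩ : ∃ l, m = l + 1 := ⟨m - 1, by omega⟩
  have h2 : F (F^[l] (act a y)) = act b y := by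
    rw [← hb, hl]
    exact (Function.iterate_succ_apply' F l _).symm
  show (F.trans (P t))^[m] (act a y) = _
  rw [hl, Function.iterate_succ_apply', h1 l (by omega)]
  show P t (F (F^[l] (act a y))) = _
  rw [h2, hP1]

/-- Limits along one parameter subgroups. -/
theorem pp_limit {O : Set N} {act : S → N → N} (hact : IsLieAction n N κ O act) {y : N}
    (hyO : y ∈ O) (hcoc : ∃ K : Set S, IsCompact K ∧ ∀ g, ∃ k ∈ K, act g y = act k y)
    {m : ℕ} (hm : 1 ≤ m) {h : S} {φ : S →* S} {c : ℝ → S} (hc : IsOne κ c)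
    (s : ℕ → ℝ) (hs : Tendsto s atTop (𝓝 0)) (hP : ∀ i, PP n r act y m φ (c (s i) * h)) :
    PP n r act y m φ h := by
  intro F hF hdis
  obtain ⟨H, ε, hε, hH0, hfam, hH⟩ := pert hact hyO hcoc F hm hdis hc
  apply closable_of_limit
  intro U hU hFU
  obtain ⟨s', hs'⟩ : ∃ s' : ℕ → V 1, ∀ i, s' i = EuclideanSpace.single (0 : Fin 1) (s i) :=
    ⟨_, fun _ => rfl⟩
  have hs'0 : Tendsto s' atTop (𝓝 0) := by
    rw [tendsto_zero_iff_norm_tendsto_zero]
    have h1 : (fun i => ‖s' i‖) = fun i => ‖s i‖ := by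
      funext i
      rw [hs', PiLp.norm_single]
    rw [h1]
    have h2 := hs.norm
    rwa [norm_zero] at h2
  have hcv : Cv (fun i => H (s' i)) F := by
    have h1 := Cv.fam Pool.Agent.W917.SC.comp hfam hs'0
    rwa [hH0] at h1
  have hev : ∀ᶠ i in atTop, ‖s' i‖ < ε := by
    have h1 := hs'0.norm
    rw [norm_zero] at h1
    exact h1.eventually (gt_mem_nhds hε)
  obtain ⟨i, hi, hiU⟩ := (hev.and (hcv.mem hU hFU)).exists
  refine ⟨_, hiU, subset_closure ?_⟩
  refine hP i (H (s' i)) ?_ ?_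
  · intro a
    rw [((hH (s' i) hi a).2 _ (hF a)), hs', PiLp.single_apply, if_pos rfl, mul_assoc]
  · intro i' h1 h2 g g'
    rw [(hH (s' i) hi g).1 i' h2]
    exact hdis i' h1 h2 _ _

end Pool.Agent.U898.SV
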