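import Pool.Agent.U898.SV.Pert

/-!
# The closing property on periodic solvmanifolds with affine return maps
-/

set_option autoImplicit false
set_option linter.unusedSectionVars false

open scoped Manifold ContDiff Topology NNReal
open Filter Set Metric

universe u

namespace Pool.Agent.U898.SV

open Pool.Agent.H718R2.G Pool.Agent.W564.SC Pool.Agent.TH382.QC Pool.Agent.TH80.CLX
  Pool.Agent.TH382.HS Pool.Agent.R189.NC

section alg

variable {S : Type} [Group S]

/-- the translation parts of the iterates of `g ↦ h φ(g)` -/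
def tr (h : S) (φ : S →* S) : ℕ → S
  | 0 => 1
  | a + 1 => h * φ (tr h φ a)

/-- the iterates of `φ` -/
def itA (φ : S →* S) : ℕ → (S →* S)
  | 0 => MonoidHom.id S
  | a + 1 => φ.comp (itA φ a)

variable {N : Type*} {act : S → N → N} {y : N} {f : N → N} {h : S} {φ : S →* S}

theorem tr_iter (hf : ∀ g, f (act g y) = act (h * φ g) y) (a : ℕ) (g : S) :
    f^[a] (act g y) = act (tr h φ a * itA φ a g) y := by
  induction a with
  | zero =>
    show act g y = act (1 * g) y
    rw [one_mul]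
  | succ a ih =>
    rw [Function.iterate_succ_apply', ih, hf]
    show _ = act (h * φ (tr h φ a) * φ (itA φ a g)) y
    rw [map_mul, mul_assoc]

theorem itA_mem {G : Subgroup S} (hφ : ∀ g, φ g ∈ G ↔ g ∈ G) (a : ℕ) (g : S) :
    itA φ a g ∈ G ↔ g ∈ G := by
  induction a with
  | zero => exact Iff.rfl
  | succ a ih => exact (hφ _).trans ih

theorem itA_surj (hφ : Function.Surjective φ) (a : ℕ) : Function.Surjective (itA φ a) := by
  induction a with
  | zero => exact fun g => ⟨g, rfl⟩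
  | succ a ih =>
    intro g
    obtain ⟨g1, hg1⟩ := hφ g
    obtain ⟨g2, hg2⟩ := ih g1
    exact ⟨g2, by
      show φ (itA φ a g2) = g
      rw [hg2, hg1]⟩

end alg

section ratio

variable {n : ℕ} {N : Type u} [TopologicalSpace N] [ChartedSpace (V n) N]
  {S : Type} [Group S] [TopologicalSpace S] [IsTopologicalGroup S] {D k d : ℕ} {κ : S →* Md D}

theorem p_one {p : S → Fin k → ℝ} (hp : ∀ a b, p (a * b) = p a + p b) : p 1 = 0 := by
  have h1 := hp 1 1
  rw [mul_one] at h1
  exact left_eq_add.1 h1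

theorem p_pow {p : S → Fin k → ℝ} (hp : ∀ a b, p (a * b) = p a + p b) (g : S) (i : ℕ) :
    p (g ^ i) = (i : ℝ) • p g := by
  induction i with
  | zero => rw [pow_zero, p_one hp, Nat.cast_zero, zero_smul]
  | succ i ih => rw [pow_succ, hp, ih, Nat.cast_succ, add_smul, one_smul]

theorem p_inv {p : S → Fin k → ℝ} (hp : ∀ a b, p (a * b) = p a + p b) (g : S) :
    p g⁻¹ = - p g := by
  have h1 := hp g⁻¹ g
  rw [inv_mul_cancel, p_one hp] at h1
  exact eq_neg_of_add_eq_zero_left h1.symm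

/-- The case of a rational translation part: a suitable iterate of `F` maps the nilmanifold `G y` to
itself. -/
theorem nilPer_of_rat {O : Set N} {act : S → N → N} {p : S → Fin k → ℝ} {G : Subgroup S}
    {ι : G →* Md d} {y : N} (hact : IsLieAction n N κ O act) (hyO : y ∈ O)
    (hy : IsSolvPt n κ O act p G ι y) {m : ℕ} (hm : 1 ≤ m) (F : N → N)
    (hFi : Function.Injective F) (h : S) (φ : S →* S) (hφs : Function.Surjective φ)
    (hφ : ∀ g, φ g ∈ G ↔ g ∈ G)
    (hF : ∀ g, F^[m] (act g y) = act (h * φ g) y)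
    (hdis : ∀ i, 1 ≤ i → i < m → ∀ g g', F^[i] (act g y) ≠ act g' y)
    {q : ℕ} (hq : 1 ≤ q) (hh : ∀ j, ∃ a : ℤ, (q : ℝ) * p h j = a) :
    IsNilPer n N F y := by
  classical
  have hq0 : (q : ℝ) ≠ 0 := by
    have : (0 : ℕ) < q := hq
    exact_mod_cast this.ne'
  have hone := hact.one y hyO
  have hmul : ∀ a b, act (a * b) y = act a (act b y) := fun a b => hact.mul a b y hyO
  have hnorm : ∀ (a g : S), g ∈ G → a * g * a⁻¹ ∈ G := by
    intro a g hg
    rw [hy.ker] at hg ⊢
    rw [hy.add, hy.add, p_inv hy.add, hg, add_zero, add_neg_cancel]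
  -- cancellation
  have hst : ∀ g g', act g y = act g' y → act (g⁻¹ * g') y = y := by
    intro g g' e
    rw [hmul, ← e, ← hmul, inv_mul_cancel, hone]
  have hiter : ∀ a g, F^[m * a] (act g y) = act (tr h φ a * itA φ a g) y := by
    intro a g
    rw [Function.iterate_mul]
    exact tr_iter hF a g
  -- `φ` maps the stabiliser into itself
  have hφΓ : ∀ g, act g y = y → act (φ g) y = y := by
    intro g hg
    have h1 := hF g
    rw [hg] at h1
    have h2 := hF 1
    rw [hone, map_one, mul_one] at h2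
    rw [h1] at h2
    have h3 := hst _ _ h2.symm
    rwa [inv_mul_cancel_left] at h3
  -- the elements with rational image of denominator `q`
  have hΛφ : ∀ g, (∀ j, ∃ a : ℤ, (q : ℝ) * p g j = a) → ∀ j, ∃ a : ℤ, (q : ℝ) * p (φ g) j = a := by
    intro g hg
    have h1 : ∀ j, ∃ a : ℤ, p (g ^ q) j = a := by
      intro j
      rw [p_pow hy.add]
      exact hg j
    obtain ⟨γ, hγ, hpγ⟩ := (hy.lattice _).2 h1
    have h2 : g ^ q * γ⁻¹ ∈ G := by
      rw [hy.ker, hy.add, p_inv hy.add, hpγ, add_neg_cancel]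
    have h3 : φ (g ^ q * γ⁻¹) ∈ G := (hφ _).2 h2
    rw [hy.ker, map_mul, map_inv, hy.add, p_inv hy.add, map_pow, p_pow hy.add,
      add_neg_eq_zero] at h3
    have h4 := (hy.lattice (p (φ γ))).1 ⟨φ γ, hφΓ γ hγ, rfl⟩
    intro j
    obtain ⟨a, ha⟩ := h4 j
    refine ⟨a, ?_⟩
    rw [← ha, ← h3]
    rfl
  have hΛt : ∀ a, ∀ j, ∃ b : ℤ, (q : ℝ) * p (tr h φ a) j = b := by
    intro a
    induction a with
    | zero =>
      intro j
      refine ⟨0, ?_⟩
      show (q : ℝ) * p 1 j = _
      rw [p_one hy.add]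
      simp
    | succ a ih =>
      intro j
      obtain ⟨b, hb⟩ := hh j
      obtain ⟨c, hc⟩ := hΛφ _ ih j
      refine ⟨b + c, ?_⟩
      show (q : ℝ) * p (h * φ (tr h φ a)) j = _
      rw [hy.add, Pi.add_apply, mul_add, hb, hc]
      push_cast
      ring
  choose b hb using hΛt
  -- pigeonhole
  have : NeZero q := ⟨by omega⟩
  obtain ⟨a1, a2, ha12, hbb⟩ : ∃ a1 a2 : ℕ, a1 < a2 ∧
      (fun j => ((b a1 j : ℤ) : ZMod q)) = fun j => ((b a2 j : ℤ) : ZMod q) := by
    obtain ⟨x, y', hne, he⟩ := Finite.exists_ne_map_eq_of_infinite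
      (fun (a : ℕ) (j : Fin k) => ((b a j : ℤ) : ZMod q))
    rcases lt_or_gt_of_ne hne with hlt | hlt
    · exact ⟨x, y', hlt, he⟩
    · exact ⟨y', x, hlt, he.symm⟩
  -- some iterate maps `y` to `G y`
  have hex : ∃ M : ℕ, 1 ≤ M ∧ ∃ g ∈ G, F^[M] y = act g y := by
    have h1 : ∀ j, ∃ c : ℤ, (p (tr h φ a2) - p (tr h φ a1)) j = c := by
      intro j
      have h2 : ((b a2 j - b a1 j : ℤ) : ZMod q) = 0 := by
        rw [Int.cast_sub, ← congrFun hbb j, sub_self]
      obtain ⟨c, hc⟩ := (ZMod.intCast_zmod_eq_zero_iff_dvd _ q).1 h2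
      refine ⟨c, ?_⟩
      have h3 : (q : ℝ) * (p (tr h φ a2) j - p (tr h φ a1) j) = q * c := by
        rw [mul_sub, hb, hb]
        exact_mod_cast hc
      exact mul_left_cancel₀ hq0 h3
    obtain ⟨γ, hγ, hpγ⟩ := (hy.lattice _).2 h1
    have hg1 : (tr h φ a1)⁻¹ * tr h φ a2 * γ⁻¹ ∈ G := by
      rw [hy.ker, hy.add, hy.add, p_inv hy.add, p_inv hy.add, hpγ]
      abel
    obtain ⟨g2, hg2⟩ := itA_surj hφs a1 ((tr h φ a1)⁻¹ * tr h φ a2 * γ⁻¹)
    have hg2G : g2 ∈ G := by
      rw [← itA_mem hφ a1, hg2]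
      exact hg1
    refine ⟨m * (a2 - a1), Nat.mul_pos hm (by omega), g2, hg2G, ?_⟩
    apply hFi.iterate (m * a1)
    rw [← Function.iterate_add_apply, ← mul_add, Nat.add_sub_cancel' ha12.le, hiter, hg2]
    have h2 := hiter a2 1
    rw [hone, map_one, mul_one] at h2
    have h3 : act γ⁻¹ y = y := by
      have h4 : act (γ⁻¹ * γ) y = y := by rw [inv_mul_cancel, hone]
      rwa [hmul, hγ] at h4
    have h5 : tr h φ a1 * ((tr h φ a1)⁻¹ * tr h φ a2 * γ⁻¹) = tr h φ a2 * γ⁻¹ := by group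
    rw [h2, h5, hmul, h3]
  obtain ⟨M, hMdef⟩ : ∃ M, M = Nat.find hex := ⟨_, rfl⟩
  obtain ⟨hM1, g1, hg1, hMg⟩ : 1 ≤ M ∧ ∃ g ∈ G, F^[M] y = act g y := by
    rw [hMdef]
    exact Nat.find_spec hex
  have hmin : ∀ i, 1 ≤ i → i < M → ∀ g ∈ G, F^[i] y ≠ act g y := by
    intro i hi hiM g hg he
    rw [hMdef] at hiM
    exact Nat.find_min hex hiM ⟨hi, g, hg, he⟩
  -- times of return to `S y` are multiples of `m`
  have hdiv : ∀ i g g', F^[i] (act g y) = act g' y → ∃ a, i = m * a := by
    intro i g g' he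
    refine ⟨i / m, ?_⟩
    by_contra hne
    have h1 : i % m ≠ 0 := by
      intro h0
      apply hne
      have := Nat.div_add_mod i m
      omega
    have h2 : i % m < m := Nat.mod_lt _ hm
    have h3 : F^[i] (act g y) = F^[i % m] (F^[m * (i / m)] (act g y)) := by
      rw [← Function.iterate_add_apply]
      congr 1
      have := Nat.div_add_mod i m
      rw [Nat.mod_add_div]
    rw [h3, hiter] at he
    exact hdis _ (Nat.one_le_iff_ne_zero.2 h1) h2 _ _ he
  obtain ⟨a, ha⟩ : ∃ a, M = m * a := by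
    refine hdiv M 1 g1 ?_
    rw [hone, hMg]
  have ha1 : act (tr h φ a) y = act g1 y := by
    have h1 := hiter a 1
    rw [hone, map_one, mul_one, ← ha, hMg] at h1
    exact h1.symm
  -- the return map to `G y`
  obtain ⟨γ, hγd⟩ : ∃ γ, γ = g1⁻¹ * tr h φ a := ⟨_, rfl⟩
  have hγ : act γ y = y := by
    rw [hγd]
    exact hst _ _ ha1.symm
  let ψ : G →* G :=
    { toFun := fun g => ⟨γ * itA φ a g * γ⁻¹, hnorm γ _ ((itA_mem hφ a _).2 g.2)⟩
      map_one' := by
        apply Subtype.ext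
        show γ * itA φ a ((1 : G) : S) * γ⁻¹ = 1
        rw [OneMemClass.coe_one, map_one, mul_one, mul_inv_cancel]
      map_mul' := fun g g' => by
        apply Subtype.ext
        show γ * itA φ a ((g * g' : G) : S) * γ⁻¹ =
          γ * itA φ a (g : S) * γ⁻¹ * (γ * itA φ a (g' : S) * γ⁻¹)
        rw [Subgroup.coe_mul, map_mul]
        group }
  refine ⟨G, inferInstance, inferInstance, inferInstance, d, ι, O, fun g w => act g w, hy.nilAct,
    hyO, hy.nil, M, hM1, ⟨⟨g1, hg1⟩, ψ, fun g => ?_⟩, fun i hi hiM g g' he => ?_⟩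
  · show F^[M] (act (g : S) y) = act (g1 * (γ * itA φ a (g : S) * γ⁻¹)) y
    rw [ha, hiter]
    have h1 : tr h φ a * itA φ a (g : S) = g1 * (γ * itA φ a (g : S) * γ⁻¹) * γ := by
      rw [hγd]
      group
    rw [h1, hmul, hγ]
  · obtain ⟨c, hc⟩ := hdiv i g g' he
    have h1 : F^[i] (act (g : S) y) = act (g' : S) y := he
    rw [hc, hiter] at h1
    have h2 := hiter c 1
    rw [hone, map_one, mul_one, ← hc] at h2
    refine hmin i hi hiM (tr h φ c * (itA φ c (g : S))⁻¹ * (tr h φ c)⁻¹ * g') ?_ ?_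
    · exact G.mul_mem (hnorm _ _ (G.inv_mem ((itA_mem hφ c _).2 g.2))) g'.2
    · rw [h2, hmul _ (g' : S), ← h1, ← hmul]
      congr 1
      group

end ratio

variable {n : ℕ} {N : Type u} [TopologicalSpace N] [T2Space N] [CompactSpace N]
  [ChartedSpace (V n) N] [IsManifold (𝓡 n) ∞ N] {r : ℕ∞}
  {S : Type} [Group S] [TopologicalSpace S] [IsTopologicalGroup S] {D k d : ℕ} {κ : S →* Md D}

/-- The closing property on a periodic solvmanifold with affine return map. -/
theorem pp_all {O : Set N} {act : S → N → N} {p : S → Fin k → ℝ} {G : Subgroup S}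
    {ι : G →* Md d} {y : N} (hact : IsLieAction n N κ O act) (hyO : y ∈ O)
    (hy : IsSolvPt n κ O act p G ι y) {m : ℕ} (hm : 1 ≤ m) (φ : S →* S)
    (hφs : Function.Surjective φ) (hφ : ∀ g, φ g ∈ G ↔ g ∈ G) (h : S) :
    PP n r act y m φ h := by
  -- the rational case
  have hrat : ∀ w : S, (∀ j, ∃ x : ℚ, p w j = x) → PP n r act y m φ w := by
    intro w hw F hF hdis
    choose x hx using hw
    have hq1 : 1 ≤ ∏ j, (x j).den := Finset.prod_pos fun j _ => (x j).pos
    refine Pool.Agent.R189.NC.closable_of_nilPer F y (nilPer_of_rat hact hyO hy hm F F.injective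
      w φ hφs hφ hF hdis hq1 fun j => ?_)
    obtain ⟨c, hc⟩ : (x j).den ∣ ∏ j, (x j).den := Finset.dvd_prod_of_mem _ (Finset.mem_univ j)
    refine ⟨c * (x j).num, ?_⟩
    rw [hx, hc]
    have h4 : ((x j).den : ℚ) * x j = (x j).num := by
      rw [mul_comm]
      exact Rat.mul_den_eq_num _
    have h5 : ((x j).den : ℝ) * (x j : ℝ) = ((x j).num : ℝ) := by exact_mod_cast h4
    push_cast
    rw [mul_right_comm, h5]
    ring
  -- induction on the number of irrational coordinates
  have hind : ∀ l : ℕ, ∀ w : S, (∀ j : Fin k, l ≤ (j : ℕ) → ∃ x : ℚ, p w j = x) →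
      PP n r act y m φ w := by
    intro l
    induction l with
    | zero => exact fun w hw => hrat w fun j => hw j (Nat.zero_le _)
    | succ l ih =>
      intro w hw
      by_cases hl : l < k
      · obtain ⟨c, hc, hpc⟩ := hy.line ⟨l, hl⟩
        obtain ⟨t, ht⟩ : ∃ t, t = p w ⟨l, hl⟩ := ⟨_, rfl⟩
        have hq : ∀ i : ℕ, ∃ x : ℚ, |(x : ℝ) - t| < 1 / ((i : ℝ) + 1) := by
          intro i
          have h1 : (0 : ℝ) < 1 / ((i : ℝ) + 1) := by positivity
          obtain ⟨x, hx1, hx2⟩ := exists_rat_btwn (show t < t + 1 / ((i : ℝ) + 1) by linarith)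
          refine ⟨x, ?_⟩
          rw [abs_lt]
          constructor <;> linarith
        choose x hx using hq
        have hs : Tendsto (fun i : ℕ => (x i : ℝ) - t) atTop (𝓝 0) := by
          rw [tendsto_zero_iff_abs_tendsto_zero]
          exact squeeze_zero (fun i => abs_nonneg _) (fun i => (hx i).le)
            tendsto_one_div_add_atTop_nhds_zero_nat
        refine pp_limit hact hyO hy.cocompact hm hc (fun i => (x i : ℝ) - t) hs fun i => ?_
        refine ih _ fun j hj => ?_
        rw [hy.add, hpc, Pi.add_apply]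
        by_cases hjl : (j : ℕ) = l
        · have e : j = ⟨l, hl⟩ := Fin.ext hjl
          refine ⟨x i, ?_⟩
          rw [e, Pi.single_eq_same, ← ht]
          ring
        · have e : j ≠ ⟨l, hl⟩ := fun e => hjl (by rw [e])
          obtain ⟨x', hx'⟩ := hw j (by omega)
          exact ⟨x', by rw [Pi.single_eq_of_ne e, zero_add, hx']⟩
      · refine ih w fun j hj => ?_
        have := j.2
        omega
  exact hind k h fun j hj => absurd j.2 (by omega)

/-- Closing on periodic solvmanifolds. -/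
theorem closable_of_solvPer (F : DiffM n N r) (y : N) (h : IsSolvPer n N F y) :
    ClosableAt n N r F y := by
  obtain ⟨S, iS, iT, iTG, D, k, d, κ, O, act, p, G, ι, hact, hyO, hy, m, hm, ⟨h, φ, hφ, hF⟩,
    hdis⟩ := h
  exact pp_all hact hyO hy hm φ.toMonoidHom φ.surjective hφ h F hF hdis

/-- Closing at limits of periodic solvmanifolds. -/
theorem main (F : DiffM n N r) (z : N)
    (h : ∀ U : Set (DiffM n N r), IsOpen[strongTop n N r] U → F ∈ U →
      ∃ F' ∈ U, z ∈ closure {y | IsSolvPer n N F' y}) : ClosableAt n N r F z := by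
  refine closable_of_limit F z fun U hU hFU => ?_
  obtain ⟨F', hF', hz⟩ := h U hU hFU
  exact ⟨F', hF', closure_mono (fun y hy => closable_of_solvPer F' y hy) hz⟩

end Pool.Agent.U898.SV
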